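import Pool.Agent.Q105.MN.Cok

/-!
# Surjectivity of the Stolz index map for amalgamated products and extensions of free products

Let `R n`, `H n`, `E n` be functors from groups and injective homomorphisms to abelian groups with natural
transformations `Θ n : R n → E n` and `α n : H n → E n`, such that the image of `α n` is contained in the
image of `Θ n`; for the Stolz index map `R n (Γ)` is the relative psc bordism group of the classifying space
for proper actions with the Bott manifold inverted, `E n (Γ) = KO_n(C*_r(Γ; ℝ))`, `H n (Γ)` is the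
equivariant real `K`-homology of the classifying space for proper actions and `α n` the real Baum–Connes
assembly map.
-/

set_option autoImplicit false

namespace Pool.Agent.Results.MP_8db816_gt.SurjectivityOfTheta

open Pool.Agent.Q262.NV Pool.Agent.Q105.NV Pool.Agent.Q105.MN

/-- The image of `α n` is contained in the image of `Θ n`. -/
def Contains {R H E : ℤ → MFun} (Θ : ∀ n, MNat (R n) (E n)) (α : ∀ n, MNat (H n) (E n)) : Prop :=
  ∀ (n : ℤ) (G : Type) [Group G] (x : (H n).obj G), ∃ r, (Θ n).app G r = (α n).app G x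

/-- (1) If the cokernel of `Θ (n + 1)` is `S`-torsion for `A` and `B`, and `α n` is injective for `A` and `B`
and surjective for `K`, then the cokernel of `Θ (n + 1)` is `S`-torsion for the amalgamated product of `A` and
`B` over `K`. -/
def Amalgams {R H E : ℤ → MFun} (Θ : ∀ n, MNat (R n) (E n)) (α : ∀ n, MNat (H n) (E n)) : Prop :=
  ∀ (S : Submonoid ℕ) (n : ℤ) (K A B P : Type) [Group K] [Group A] [Group B] [Group P],
    Sq K A B P → Function.Surjective ((α n).app K) → Function.Injective ((α n).app A) →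
    Function.Injective ((α n).app B) → CokTor S (Θ (n + 1)) A → CokTor S (Θ (n + 1)) B →
    CokTor S (Θ (n + 1)) P

/-- (2) If the cokernel of `Θ n` is `S`-torsion for the members of a directed family of subgroups of `Γ` with
union `Γ`, it is for `Γ`. -/
def Unions {R E : ℤ → MFun} (Θ : ∀ n, MNat (R n) (E n)) : Prop :=
  ∀ (S : Submonoid ℕ) (n : ℤ) (Γ I : Type) [Group Γ] [Preorder I] [Nonempty I]
    (M : I → Subgroup Γ), (∀ i j : I, ∃ k, i ≤ k ∧ j ≤ k) → Monotone M → (∀ g, ∃ i, g ∈ M i) →
    (∀ i, CokTor S (Θ n) (M i)) → CokTor S (Θ n) Γ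

/-- `ker π` is the internal free product of the subgroups `P u`, `u ∈ U`, with `P v = L v ∩ ker π` for `v` in
the subset `V` of `U`, and all `α n` are bijective for the other groups `P u`. -/
def FreeKernel {H E : ℤ → MFun} (α : ∀ n, MNat (H n) (E n)) {Γ Q U : Type} [Group Γ] [Group Q]
    (π : Γ →* Q) (P : U → Subgroup Γ) {V : Set U} (L : V → Subgroup Γ) : Prop :=
  IsFreeProdM P π.ker ∧ (∀ v : V, L v ⊓ π.ker = P v) ∧
    ∀ n, ∀ u ∉ V, Function.Bijective ((α n).app (P u))

/-- `π` is onto, `Q` belongs to the class `Hier`, the `L v` are mapped onto `Q`, and all `α n` are injective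
for the subgroups of `L v` that contain `L v ∩ ker π`. -/
def Data {H E : ℤ → MFun} (α : ∀ n, MNat (H n) (E n)) {Γ Q V : Type} [Group Γ] [Group Q]
    (π : Γ →* Q) (L : V → Subgroup Γ) : Prop :=
  Function.Surjective π ∧ Hier (⊤ : Subgroup Q) ∧ (∀ v q, ∃ l ∈ L v, π l = q) ∧
    ∀ n v (D : Subgroup Γ), L v ⊓ π.ker ≤ D → D ≤ L v → Function.Injective ((α n).app D)

/-- (3) Let `Γ` be an extension of the free product `ker π` by `Q`, as in `Data` and `FreeKernel`. If the
cokernel of `Θ n` is `S`-torsion for all groups `L v`, it is for `Γ`. -/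
def Extensions {R H E : ℤ → MFun} (Θ : ∀ n, MNat (R n) (E n)) (α : ∀ n, MNat (H n) (E n)) : Prop :=
  ∀ (S : Submonoid ℕ) (Γ Q U : Type) [Group Γ] [Group Q] (π : Γ →* Q) (P : U → Subgroup Γ)
    (V : Set U) (L : V → Subgroup Γ), FreeKernel α π P L → Data α π L →
    ∀ n, (∀ v, CokTor S (Θ n) (L v)) → CokTor S (Θ n) Γ

/-- The three statements. -/
theorem result (R H E : ℤ → MFun) (Θ : ∀ n, MNat (R n) (E n)) (α : ∀ n, MNat (H n) (E n))
    (h : SetupM H E α) (hc : Contains Θ α) : Amalgams Θ α ∧ Unions Θ ∧ Extensions Θ α := by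
  refine ⟨?_, ?_, ?_⟩
  · intro S n K A B P _ _ _ _ Q hK iA iB hA hB
    exact cokTor_amal (h n).2.1 (fun G _ x => hc (n + 1) G x) Q hK iA iB hA hB
  · intro S n Γ I _ _ _ M hd hM hU hi
    exact cokTor_union (h n).2.2.1.2 hd hM hU hi
  · intro S Γ Q U _ _ π P V L hN hd n hL
    obtain ⟨hπ, hQ, hLs, hI⟩ := hd
    have h0 : ∀ n, RelM (α n) (fun v => incE (L v) π.ker) := fun n =>
      relM_fpb h V hN.2.1 (fun n v => hI n v _ (hN.2.1 v).le
        (by rw [← hN.2.1 v]; exact inf_le_left)) hN.2.2 hN.1 n
    have h2 := hier_top h hπ hLs (fun n v S => hI n v _ (fun x hx => ⟨hx.1, by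
      have h3 : π x = 1 := hx.2
      change π x ∈ S
      rw [h3]
      exact one_mem _⟩) inf_le_left) h0 hQ n
    exact cokTor_rel (fun G _ x => hc n G x) h2.1 hL

end Pool.Agent.Results.MP_8db816_gt.SurjectivityOfTheta
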